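import Mathlib

set_option autoImplicit false

namespace Pool.Agent.Results.MP_4780e6_al.CommCounterexample

/-- The matrix over `R` underlying a matrix of units. -/
def toMat {R : Type} [Ring R] {v : ℕ} (M : Matrix (Fin v) (Fin v) Rˣ) :
    Matrix (Fin v) (Fin v) R :=
  fun i j => ((M i j : Rˣ) : R)

/-- `M^*`: the transpose of the matrix of entrywise inverses. -/
def invStar {R : Type} [Ring R] {v : ℕ} (M : Matrix (Fin v) (Fin v) Rˣ) :
    Matrix (Fin v) (Fin v) R :=
  fun i j => (((M j i)⁻¹ : Rˣ) : R)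

/-- The commutative ring `ℤ[ω][s] / (s², (ω - 1) s)`; the element `(a, b, c)` is `a + b ω + c s`. -/
@[ext] structure T where
  a : ℤ
  b : ℤ
  c : ZMod 3
deriving DecidableEq

namespace T

instance : Zero T := ⟨⟨0, 0, 0⟩⟩
instance : One T := ⟨⟨1, 0, 0⟩⟩
instance : Add T := ⟨fun x y => ⟨x.a + y.a, x.b + y.b, x.c + y.c⟩⟩
instance : Neg T := ⟨fun x => ⟨-x.a, -x.b, -x.c⟩⟩
instance : Mul T := ⟨fun x y => ⟨x.a * y.a - x.b * y.b, x.a * y.b + x.b * y.a - x.b * y.b,
  ((x.a + x.b : ℤ) : ZMod 3) * y.c + ((y.a + y.b : ℤ) : ZMod 3) * x.c⟩⟩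

@[simp] lemma zero_a : (0 : T).a = 0 := rfl
@[simp] lemma zero_b : (0 : T).b = 0 := rfl
@[simp] lemma zero_c : (0 : T).c = 0 := rfl
@[simp] lemma one_a : (1 : T).a = 1 := rfl
@[simp] lemma one_b : (1 : T).b = 0 := rfl
@[simp] lemma one_c : (1 : T).c = 0 := rfl
@[simp] lemma add_a (x y : T) : (x + y).a = x.a + y.a := rfl
@[simp] lemma add_b (x y : T) : (x + y).b = x.b + y.b := rfl
@[simp] lemma add_c (x y : T) : (x + y).c = x.c + y.c := rfl
@[simp] lemma neg_a (x : T) : (-x).a = -x.a := rfl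
@[simp] lemma neg_b (x : T) : (-x).b = -x.b := rfl
@[simp] lemma neg_c (x : T) : (-x).c = -x.c := rfl
@[simp] lemma mul_a (x y : T) : (x * y).a = x.a * y.a - x.b * y.b := rfl
@[simp] lemma mul_b (x y : T) : (x * y).b = x.a * y.b + x.b * y.a - x.b * y.b := rfl
@[simp] lemma mul_c (x y : T) : (x * y).c =
  ((x.a + x.b : ℤ) : ZMod 3) * y.c + ((y.a + y.b : ℤ) : ZMod 3) * x.c := rfl

lemma three_zmod : (3 : ZMod 3) = 0 := by decide

instance : CommRing T where
  add_assoc x y z := by ext <;> simp [add_assoc]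
  zero_add x := by ext <;> simp
  add_zero x := by ext <;> simp
  add_comm x y := by ext <;> simp [add_comm]
  neg_add_cancel x := by ext <;> simp
  left_distrib x y z := by
    ext <;> simp <;> ring
  right_distrib x y z := by
    ext <;> simp <;> ring
  zero_mul x := by ext <;> simp
  mul_zero x := by ext <;> simp
  one_mul x := by ext <;> simp
  mul_one x := by ext <;> simp
  mul_comm x y := by
    ext
    · simp; ring
    · simp; ring
    · simp; ring
  mul_assoc x y z := by
    ext
    · simp; ring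
    · simp; ring
    · simp
      have h3 := three_zmod
      linear_combination ((x.b : ZMod 3) * y.b * z.c - (x.c : ZMod 3) * y.b * z.b) * (-h3)
  nsmul := nsmulRec
  zsmul := zsmulRec

@[simp] lemma natCast_a (n : ℕ) : (n : T).a = n := by
  induction n with
  | zero => simp
  | succ n ih => simp [ih]

instance : CharZero T where
  cast_injective m n h := by
    have := congrArg T.a h
    simpa using this

/-- The unit `ω` of `T`, with inverse `ω² = -1 - ω`. -/
def w : Tˣ where
  val := ⟨0, 1, 0⟩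
  inv := ⟨-1, -1, 0⟩
  val_inv := by ext <;> simp
  inv_val := by ext <;> simp

/-- The unit `c = ω² + s` of `T`, with inverse `c² = ω + 2 s`. -/
def c' : Tˣ where
  val := ⟨-1, -1, 1⟩
  inv := ⟨0, 1, 2⟩
  val_inv := by
    ext
    · simp
    · simp
    · simp; decide
  inv_val := by
    ext
    · simp
    · simp
    · simp; decide

lemma w_cube : w ^ 3 = 1 := by
  ext
  · simp [pow_succ, w]
  · simp [pow_succ, w]
  · simp [pow_succ, w]

lemma c'_cube : c' ^ 3 = 1 := by
  ext
  · simp [pow_succ, c']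
  · simp [pow_succ, c']
  · simp [pow_succ, c']
    decide

/-- The group generated by `ω` and `ω² + s`. -/
def N : Subgroup Tˣ := Subgroup.closure {w, c'}

lemma N_pow (u : Tˣ) (hu : u ∈ N) : u ^ 3 = 1 := by
  unfold N at hu
  induction hu using Subgroup.closure_induction with
  | mem x hx =>
    rcases hx with rfl | rfl
    · exact w_cube
    · exact c'_cube
  | one => simp
  | mul x y _ _ hx hy => rw [mul_pow, hx, hy, one_mul]
  | inv x _ hx => rw [inv_pow, hx, inv_one]

instance : Finite N := by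
  have hfg : Group.FG N := by
    rw [Group.fg_iff_subgroup_fg]
    exact ⟨{w, c'}, by simp [N]⟩
  apply CommGroup.finite_of_fg_isMulTorsion
  intro x
  rw [isOfFinOrder_iff_pow_eq_one]
  refine ⟨3, by norm_num, ?_⟩
  ext1
  exact N_pow x.1 x.2

/-- The matrix with rows `(1, 1, 1)`, `(1, ω, ω²)`, `(1, c, c²)`, where `c = ω² + s`. -/
def M : Matrix (Fin 3) (Fin 3) Tˣ := !![1, 1, 1; 1, w, w⁻¹; 1, c', c'⁻¹]

lemma M_mem (i j : Fin 3) : M i j ∈ N := by
  have hw : w ∈ N := Subgroup.subset_closure (by simp)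
  have hc : c' ∈ N := Subgroup.subset_closure (by simp)
  fin_cases i <;> fin_cases j <;> simp [M, hw, hc, N.one_mem]

end T

lemma key1 : toMat T.M * invStar T.M = (3 : T) • (1 : Matrix (Fin 3) (Fin 3) T) := by
  decide

lemma key2 : invStar T.M * toMat T.M ≠ (3 : T) • (1 : Matrix (Fin 3) (Fin 3) T) := by
  decide

/-- There are a commutative ring `R` of characteristic zero, a finite subgroup `N ≤ Rˣ`, and a
`3 × 3` matrix `M` with entries in `N` such that `M M^* = 3 I` but `M^* M ≠ 3 I`. -/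
theorem result :
    ∃ (R : Type) (_ : CommRing R) (_ : CharZero R) (N : Subgroup Rˣ)
      (M : Matrix (Fin 3) (Fin 3) Rˣ),
      Finite N ∧ (∀ i j, M i j ∈ N) ∧
      toMat M * invStar M = (3 : R) • (1 : Matrix (Fin 3) (Fin 3) R) ∧
      invStar M * toMat M ≠ (3 : R) • (1 : Matrix (Fin 3) (Fin 3) R) :=
  ⟨T, inferInstance, inferInstance, T.N, T.M, inferInstance, T.M_mem, key1, key2⟩

end Pool.Agent.Results.MP_4780e6_al.CommCounterexample
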